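import Pool.Agent.H82.EUC.Stmts

/-!
Row DSW of the board `euc` (MP_d7577e_lc): moved women of independent edges are different.
-/

set_option autoImplicit false

namespace Pool.EUC

theorem dsw_thm : DSW_S := by
  intro A dM dW hM hW F hF u v k l huv huk hul hvk hvl hkl w h1 h2
  -- partners in the women's distances
  have e1 := (hF.m2 u v k l huv huk hul hvk hvl hkl).1 w
  have e2 := (hF.m2 k l v u hkl (Ne.symm hvk) (Ne.symm huk) (Ne.symm hvl) (Ne.symm hul)
    (Ne.symm huv)).1 w
  have e3 := (hF.m3 u v k l huv huk hul hvk hvl hkl).1 w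
  rw [hF.bsymm v u] at e2
  -- `X.symm w = (a l).symm w`
  have lk : dW w ((F.b k l).symm w) ≠ dW w ((F.a l).symm w) := by
    intro h
    apply h2
    rw [hF.bsymm l k]
    exact (hW w h).symm
  have uv : dW w ((F.b u v).symm w) ≠ dW w ((F.a u).symm w) := by
    intro h
    exact h1 (hW w h).symm
  have x1 : dW w ((F.c u v l).symm w) = dW w ((F.a l).symm w) := by
    rcases max_choice (dW w ((F.c u v l).symm w)) (dW w ((F.b k l).symm w)) with h | h
    · rw [h] at e1
      exact e1.symm
    · rw [h] at e1
      exact absurd e1.symm lk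
  have x2 : dW w ((F.c k l u).symm w) = dW w ((F.a u).symm w) := by
    rcases max_choice (dW w ((F.c k l u).symm w)) (dW w ((F.b u v).symm w)) with h | h
    · rw [h] at e2
      exact e2.symm
    · rw [h] at e2
      exact absurd e2.symm uv
  rw [x1, x2] at e3
  have y1 := hF.ad l u (Ne.symm hul) w
  have y2 := hF.ad u l hul w
  rw [hF.dsymm l u] at y1
  have z1 := hF.bc u v l huv hul hvl w
  have z2 := hF.db u v huv w
  have z3 := hF.ad u v huv w
  have t1 := le_max_left (dW w ((F.a l).symm w)) (dW w ((F.a u).symm w))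
  have t2 := le_max_right (dW w ((F.a l).symm w)) (dW w ((F.a u).symm w))
  rw [← e3] at t1 t2
  apply uv
  linarith

end Pool.EUC
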